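import Pool.Agent.RS.StmtsT

set_option autoImplicit false

/-! # Squad RS, row GCZ: the field of germs has characteristic zero -/

namespace Pool.Agent.RS.H31

theorem gcz : GczStmt := by
  intro E _ _
  refine ⟨fun a b h => ?_⟩
  have h1 : ((a : E) : KS E) = ((b : E) : KS E) := h
  rw [Filter.Germ.const_inj] at h1
  exact_mod_cast h1

end Pool.Agent.RS.H31
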