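import Pool.Agent.RS.StmtsG

set_option autoImplicit false

/-!
# Squad RS, row HIT: the hitting set for one nonzero polynomial of the class
-/

namespace Pool.Agent.RS.H31

open MvPolynomial

/-- the polynomials of the class are polynomials in the first `n` variables -/
theorem vars_comp {E : Type} [Field E] {k d n : ℕ} {F : MvPolynomial ℕ E}
    (hF : IsComp E k d n F) : ∀ i ∈ F.vars, i < n := by
  obtain ⟨m, T, C, hT, -, rfl⟩ := hF
  have h1 : ∀ i, T i ∈ supported E {i : ℕ | i < n} := by
    intro i
    obtain ⟨N, f, hf, hTi⟩ := hT i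
    rw [hTi]
    refine Subalgebra.prod_mem _ fun v _ => ?_
    rw [mem_supported]
    intro j hj
    exact Finset.mem_range.1 ((hf v).2 hj)
  have h2 : aeval T C ∈ Algebra.adjoin E (Set.range T) := by
    rw [Algebra.adjoin_range_eq_range_aeval]
    exact ⟨C, rfl⟩
  have h3 : aeval T C ∈ supported E {i : ℕ | i < n} := by
    refine Algebra.adjoin_le ?_ h2
    rintro _ ⟨i, rfl⟩
    exact h1 i
  rw [mem_supported] at h3
  intro i hi
  exact h3 hi

/-- ROW HIT -/
theorem hit (spe : SpeStmt) (gnt : GntStmt) (fre : FreStmt) : HitStmt := by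
  intro E _ _ k d
  obtain ⟨r, Δ, hspe⟩ := spe E k d
  refine ⟨Δ + r, fun n t ht F hF hF0 => ?_⟩
  obtain ⟨J, H, hJ, hH, hPhi⟩ := hspe n F hF hF0
  obtain ⟨w, z, u, hwz⟩ := gnt E n Δ H hH
  have hG := hPhi (fun i => if i < n then Pool.Agent.UO.point n w z i else u i) hwz
  obtain ⟨y, hy⟩ : ∃ y : ℕ → E, eval y (Phi J
      (fun i => if i < n then Pool.Agent.UO.point n w z i else u i) F) ≠ 0 := by
    by_contra hcon
    push Not at hcon
    exact hG (MvPolynomial.funext fun y => by rw [hcon y, map_zero])
  obtain ⟨w', z', hp⟩ := fre E n Δ t (J.filter (· < n)) w z y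
    (fun j hj => (Finset.mem_filter.1 hj).2)
    (le_trans (Nat.add_le_add_left ((Finset.card_filter_le _ _).trans hJ) _) ht)
  refine ⟨w', z', ?_⟩
  have h1 : eval (Pool.Agent.UO.point n w' z') F = eval y (Phi J
      (fun i => if i < n then Pool.Agent.UO.point n w z i else u i) F) := by
    have h2 : eval y (Phi J (fun i => if i < n then Pool.Agent.UO.point n w z i else u i) F) =
        eval (fun i => if i ∈ J then y i else
          (if i < n then Pool.Agent.UO.point n w z i else u i)) F := by
      have h3 : (eval y).comp ((Phi J (fun i => if i < n then Pool.Agent.UO.point n w z i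
          else u i)) : MvPolynomial ℕ E →ₐ[E] MvPolynomial ℕ E).toRingHom =
          eval (fun i => if i ∈ J then y i else
            (if i < n then Pool.Agent.UO.point n w z i else u i)) := by
        refine MvPolynomial.ringHom_ext (fun c => ?_) fun i => ?_
        · simp [Phi]
        · by_cases hi : i ∈ J
          · simp [Phi, hi]
          · simp [Phi, hi]
      exact congrArg (fun g => g F) h3
    rw [h2]
    refine MvPolynomial.eval₂Hom_congr' rfl (fun i hi _ => ?_) rfl
    have hin : i < n := vars_comp hF i hi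
    rw [hp i]
    by_cases hiJ : i ∈ J
    · simp [hiJ, hin]
    · simp [hiJ, hin]
  rw [h1]
  exact hy

end Pool.Agent.RS.H31
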